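import Pool.Agent.Lib.MP_afdd4d_co.K8.EvFin

namespace Pool.Agent.Results.MP_afdd4d_co.FiveSetProfile

open Finset

/-- The number of 5-element subsets of `Fin n` that contain exactly `c` members of `H`. -/
def T {n : ℕ} (H : Finset (Finset (Fin n))) (c : ℕ) : ℕ :=
  ((univ.powersetCard 5).filter fun S => ((S.powersetCard 4).filter fun e => e ∈ H).card = c).card

/-- For every `ε > 0` and all large `n`: the density of every family `H` of 4-element subsets of an
`n`-element set is at most `11/16 + (t₃ + 5 t₅ - 3 t₁) / 5 + ε`, where `t_c` is the fraction of the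
5-element sets which contain exactly `c` members of `H`; in particular it is at most `11/16 + ε` if
no five elements contain exactly three or exactly five members of `H`; and there is a family `H` of
density at least `11/16 - ε` such that all 5-element sets contain 0, 2 or 4 members of `H`. -/
theorem result :
    ∀ ε : ℝ, 0 < ε → ∃ N : ℕ, ∀ n : ℕ, N ≤ n →
      (∀ H : Finset (Finset (Fin n)), (∀ e ∈ H, e.card = 4) →
        (H.card : ℝ) / ((n.choose 4 : ℕ) : ℝ) ≤ 11 / 16 +
          ((T H 3 : ℝ) + 5 * (T H 5 : ℝ) - 3 * (T H 1 : ℝ)) / (5 * ((n.choose 5 : ℕ) : ℝ)) + ε) ∧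
      (∀ H : Finset (Finset (Fin n)), (∀ e ∈ H, e.card = 4) → T H 3 = 0 → T H 5 = 0 →
        (H.card : ℝ) ≤ (11 / 16 + ε) * ((n.choose 4 : ℕ) : ℝ)) ∧
      (∃ H : Finset (Finset (Fin n)), (∀ e ∈ H, e.card = 4) ∧
        T H 1 = 0 ∧ T H 3 = 0 ∧ T H 5 = 0 ∧
        (11 / 16 - ε) * ((n.choose 4 : ℕ) : ℝ) ≤ (H.card : ℝ)) :=
  Pool.Agent.Lib.MP_afdd4d_co.K8.profile

end Pool.Agent.Results.MP_afdd4d_co.FiveSetProfile
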