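import Pool.Agent.Lib.MP_afdd4d_co.TB.Final
import Pool.Agent.Lib.MP_afdd4d_co.K8.EvFin

namespace Pool.Agent.Results.MP_afdd4d_co.LocalExactness

open Finset

/-- The number of 5-element subsets of `Fin n` that contain exactly `c` members of `H`. -/
def T {n : ℕ} (H : Finset (Finset (Fin n))) (c : ℕ) : ℕ :=
  ((univ.powersetCard 5).filter fun S => ((S.powersetCard 4).filter fun e => e ∈ H).card = c).card

/-- There is `η > 0` such that for every `ε > 0` and all large `n`: the density of every family `H`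
of 4-element subsets of an `n`-element set in which at most the fraction `η` of the 5-element sets
contain exactly three or exactly five members of `H` is at most `11/16 + 10 t₅ + ε`, where `t₅` is
the fraction of the 5-element sets all of whose 4-element subsets belong to `H`; and there is a
family `H` of density at least `11/16 - ε` such that no 5-element set contains exactly three or
exactly five members of `H`. -/
theorem result :
    (∃ η : ℝ, 0 < η ∧ ∀ ε : ℝ, 0 < ε → ∃ N : ℕ, ∀ n : ℕ, N ≤ n →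
      ∀ H : Finset (Finset (Fin n)), (∀ e ∈ H, e.card = 4) →
        ((T H 3 : ℝ) + (T H 5 : ℝ)) / ((n.choose 5 : ℕ) : ℝ) ≤ η →
        (H.card : ℝ) / ((n.choose 4 : ℕ) : ℝ) ≤
          11 / 16 + 10 * ((T H 5 : ℝ) / ((n.choose 5 : ℕ) : ℝ)) + ε) ∧
    (∀ ε : ℝ, 0 < ε → ∃ N : ℕ, ∀ n : ℕ, N ≤ n → ∃ H : Finset (Finset (Fin n)),
      (∀ e ∈ H, e.card = 4) ∧ T H 3 = 0 ∧ T H 5 = 0 ∧
        (11 / 16 - ε) * ((n.choose 4 : ℕ) : ℝ) ≤ (H.card : ℝ)) := by
  constructor
  · obtain ⟨η, hη, h⟩ := Pool.Agent.Lib.MP_afdd4d_co.TB.final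
    refine ⟨η, hη, fun ε hε => ?_⟩
    obtain ⟨N, hN⟩ := h ε hε
    refine ⟨max N 5, fun n hn H h4 hT => ?_⟩
    have hn5 : 5 ≤ n := le_trans (le_max_right _ _) hn
    have c5 : (0 : ℝ) < ((n.choose 5 : ℕ) : ℝ) := by exact_mod_cast Nat.choose_pos hn5
    have c4 : (0 : ℝ) < ((n.choose 4 : ℕ) : ℝ) := by
      exact_mod_cast Nat.choose_pos (le_trans (by norm_num) hn5)
    have n0 : (0 : ℝ) < n := by exact_mod_cast (lt_of_lt_of_le (by norm_num) hn5 : 0 < n)
    have h1 := hN n (le_trans (le_max_left _ _) hn) H h4 (by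
      rw [div_le_iff₀ c5] at hT
      exact hT)
    have h2 : (n.choose 5 : ℕ) * 5 = (n.choose 4) * (n - 4) := by
      have := Nat.choose_succ_right_eq n 4
      simpa using this
    have h3 : 5 * ((n.choose 5 : ℕ) : ℝ) ≤ n * ((n.choose 4 : ℕ) : ℝ) := by
      have h4 : (n.choose 5) * 5 ≤ n.choose 4 * n := by
        rw [h2]
        exact Nat.mul_le_mul_left _ (Nat.sub_le _ _)
      have h5 : ((n.choose 5 : ℕ) : ℝ) * 5 ≤ ((n.choose 4 : ℕ) : ℝ) * n := by exact_mod_cast h4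
      linarith
    have t0 : (0 : ℝ) ≤ (T H 5 : ℝ) := Nat.cast_nonneg _
    have h6 : 50 / (n : ℝ) * (T H 5 : ℝ) ≤
        10 * ((T H 5 : ℝ) / ((n.choose 5 : ℕ) : ℝ)) * ((n.choose 4 : ℕ) : ℝ) := by
      rw [div_mul_eq_mul_div, div_le_iff₀ n0]
      have e : 10 * ((T H 5 : ℝ) / ((n.choose 5 : ℕ) : ℝ)) * ((n.choose 4 : ℕ) : ℝ) * (n : ℝ) =
          10 * (T H 5 : ℝ) * (n * ((n.choose 4 : ℕ) : ℝ)) / ((n.choose 5 : ℕ) : ℝ) := by ring
      rw [e, le_div_iff₀ c5]
      have := mul_le_mul_of_nonneg_left h3 (mul_nonneg (by norm_num : (0 : ℝ) ≤ 10) t0)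
      linarith
    have h7 : (H.card : ℝ) ≤ (11 / 16 + ε) * ((n.choose 4 : ℕ) : ℝ) + 50 / n * (T H 5 : ℝ) := h1
    rw [div_le_iff₀ c4]
    linarith
  · intro ε hε
    obtain ⟨N, hN⟩ := Pool.Agent.Lib.MP_afdd4d_co.K8.profile ε hε
    refine ⟨N, fun n hn => ?_⟩
    obtain ⟨_, _, H, h4, _, h3, h5, h6⟩ := hN n hn
    exact ⟨H, h4, h3, h5, h6⟩

end Pool.Agent.Results.MP_afdd4d_co.LocalExactness
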