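import Pool.Agent.Lib.MP_afdd4d_co.MC.Sharp

namespace Pool.Agent.Results.MP_afdd4d_co.MonochromaticEdges

open Finset

/-- The number of members of `H` all of whose elements have the same colour. -/
def mono {n : ℕ} (H : Finset (Finset (Fin n))) (χ : Fin n → Bool) : ℕ :=
  (H.filter fun e => ∀ x ∈ e, ∀ y ∈ e, χ x = χ y).card

/-- Giraud's family of a colouring `χ` and a relation `M`: the 4-element sets with one or three
elements of colour `true`, and the 4-element sets with two elements `x`, `x'` of colour `true` and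
two elements `y`, `y'` of colour `false` for which `M` holds for an odd number of the four pairs
`(x, y)`, `(x, y')`, `(x', y)`, `(x', y')`. -/
def Giraud {n : ℕ} (χ : Fin n → Bool) (M : Fin n → Fin n → Bool) : Finset (Finset (Fin n)) :=
  (univ.powersetCard 4).filter fun e => Odd (e.filter fun x => χ x = true).card ∨
    ((e.filter fun x => χ x = true).card = 2 ∧
      Odd ((e ×ˢ e).filter fun p => χ p.1 = true ∧ χ p.2 = false ∧ M p.1 p.2 = true).card)

/-- For every `ε > 0` and all large `n`: for every family `H` of 4-element subsets of an `n`-element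
set such that no five elements span all five 4-element sets, and for every colouring `χ` with two
colours, there is `M` such that the size of `H` plus the number of sets in which `H` differs from
Giraud's family divided by 2000 is at most `(11/16 + ε) (n choose 4)` plus 7/10 of the number of
monochromatic members of `H`.  Giraud's families satisfy the hypothesis, have no monochromatic
member, and some of them have at least `(11/16 - ε) (n choose 4)` members. -/
theorem result :
    (∀ ε : ℝ, 0 < ε → ∃ N : ℕ, ∀ n : ℕ, N ≤ n → ∀ H : Finset (Finset (Fin n)),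
      (∀ e ∈ H, e.card = 4) →
      (∀ S : Finset (Fin n), S.card = 5 → ∃ e ∈ S.powersetCard 4, e ∉ H) →
      ∀ χ : Fin n → Bool, ∃ M : Fin n → Fin n → Bool,
        (H.card : ℝ) + ((symmDiff H (Giraud χ M)).card : ℝ) / 2000 ≤
          (11 / 16 + ε) * ((n.choose 4 : ℕ) : ℝ) + 7 / 10 * (mono H χ : ℝ)) ∧
    (∀ (n : ℕ) (χ : Fin n → Bool) (M : Fin n → Fin n → Bool),
      (∀ e ∈ Giraud χ M, e.card = 4) ∧
      (∀ S : Finset (Fin n), S.card = 5 → ∃ e ∈ S.powersetCard 4, e ∉ Giraud χ M) ∧
      mono (Giraud χ M) χ = 0) ∧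
    (∀ ε : ℝ, 0 < ε → ∃ N : ℕ, ∀ n : ℕ, N ≤ n → ∃ χ : Fin n → Bool,
      ∃ M : Fin n → Fin n → Bool,
        (11 / 16 - ε) * ((n.choose 4 : ℕ) : ℝ) ≤ ((Giraud χ M).card : ℝ)) := by
  refine ⟨Pool.Agent.Lib.MP_afdd4d_co.MC.mono_bound, ?_, Pool.Agent.Lib.MP_afdd4d_co.MC.Gir_large⟩
  intro n χ M
  refine ⟨Pool.Agent.Lib.MP_afdd4d_co.MC.Gir_card4 χ M,
    Pool.Agent.Lib.MP_afdd4d_co.MC.Gir_free χ M, ?_⟩
  have h := Pool.Agent.Lib.MP_afdd4d_co.MC.Gir_mono χ M
  have h1 : (Pool.Agent.Lib.MP_afdd4d_co.MC.monoF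
      (Pool.Agent.Lib.MP_afdd4d_co.MC.Gir χ M) χ).card = 0 := by
    rw [h]
    rfl
  exact h1

end Pool.Agent.Results.MP_afdd4d_co.MonochromaticEdges
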